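import Pool.Agent.W2helper56.PK.Stm

/-!
# `P_loc`: the values of a scheme depend on short strings only
-/

set_option autoImplicit false

namespace Pool.Agent.W2helper71.PK

open Pool.Agent.NPC Pool.Agent.H620R2.Gauge Pool.Agent.W2helper56.PK

/-- one algorithm: its output depends on the answers to short questions, and is short -/
theorem loc_alg (M : Alg) : ∃ b : Polynomial ℕ,
    (∀ (O O' : Oracle) (x : List Bool) (L : ℕ), b.eval x.length < L →
      (∀ z : List Bool, z.length < L → O z = O' z) → ac M O x = ac M O' x) ∧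
    ∀ (O : Oracle) (x : List Bool), (ac M O x).length ≤ b.eval x.length := by
  obtain ⟨b₁, h₁⟩ := tree_all M
  obtain ⟨b₂, h₂⟩ := ac_length M
  refine ⟨b₁ + b₂, fun O O' x L hL hO => ?_, fun O x => ?_⟩
  · rw [← tree_run, ← tree_run]
    refine (DT.run_congr fun z hz => ?_).1
    have h := (h₁ x).qs O' z hz
    rw [Polynomial.eval_add] at hL
    exact hO z (by omega)
  · have h := h₂ O x
    rw [Polynomial.eval_add]
    omega

theorem p_loc : P_loc := by
  intro σ
  obtain ⟨bp, hp1, hp2⟩ := loc_alg σ.Pk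
  obtain ⟨bs, hs1, hs2⟩ := loc_alg σ.Sk
  obtain ⟨be, he1, he2⟩ := loc_alg σ.Enc
  obtain ⟨bd, hd1, hd2⟩ := loc_alg σ.Dec
  let c₁ : Polynomial ℕ := 2 * σ.p + 1 + Polynomial.X
  let c₂ : Polynomial ℕ := 2 * σ.p + 1 + (2 * bp.comp c₁ + 2)
  let c₃ : Polynomial ℕ := 2 * σ.p + 1 + (2 * bs.comp c₁ + 1 + be.comp c₂)
  have e₁ : ∀ n, c₁.eval n = 2 * σ.p.eval n + 1 + n := fun n => by simp [c₁]
  have e₂ : ∀ n, c₂.eval n = 2 * σ.p.eval n + 1 + (2 * bp.eval (c₁.eval n) + 2) := fun n => by
    simp [c₂]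
  have e₃ : ∀ n, c₃.eval n =
      2 * σ.p.eval n + 1 + (2 * bs.eval (c₁.eval n) + 1 + be.eval (c₂.eval n)) := fun n => by
    simp [c₃]
  refine ⟨bp.comp c₁ + bs.comp c₁ + be.comp c₂ + bd.comp c₃ + 1, fun n O O' hO u v w b => ?_⟩
  simp only [Polynomial.eval_add, Polynomial.eval_comp, Polynomial.eval_one] at hO
  -- the inputs for the keys
  have l₁ : (pairBits (List.ofFn u) (un n)).length = c₁.eval n := by
    rw [length_pairBits, List.length_ofFn, List.length_replicate, e₁]
  have k₁ : (σ.sch O).pk n (List.ofFn u) = (σ.sch O').pk n (List.ofFn u) :=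
    hp1 O O' _ _ (by rw [l₁]; omega) hO
  have k₂ : (σ.sch O).Sk (pairBits (List.ofFn u) (un n)) =
      (σ.sch O').Sk (pairBits (List.ofFn u) (un n)) :=
    hs1 O O' _ _ (by rw [l₁]; omega) hO
  have m₁ : ((σ.sch O').pk n (List.ofFn u)).length ≤ bp.eval (c₁.eval n) := by
    have h := hp2 O' (pairBits (List.ofFn u) (un n))
    rw [l₁] at h
    exact h
  have m₂ : ((σ.sch O').Sk (pairBits (List.ofFn u) (un n))).length ≤ bs.eval (c₁.eval n) := by
    have h := hs2 O' (pairBits (List.ofFn u) (un n))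
    rw [l₁] at h
    exact h
  -- the ciphertext
  have l₂ : (pairBits (List.ofFn v) (pairBits ((σ.sch O').pk n (List.ofFn u)) [b])).length ≤
      c₂.eval n := by
    rw [length_pairBits, length_pairBits, List.length_ofFn, e₂, List.length_singleton]
    omega
  have k₃ : (σ.sch O).ct n (List.ofFn u) (List.ofFn v) b =
      (σ.sch O').ct n (List.ofFn u) (List.ofFn v) b := by
    unfold Scheme.ct
    rw [k₁]
    refine he1 O O' _ _ ?_ hO
    have := eval_mono be l₂
    omega
  have m₃ : ((σ.sch O').ct n (List.ofFn u) (List.ofFn v) b).length ≤ be.eval (c₂.eval n) :=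
    (he2 O' _).trans (eval_mono be l₂)
  -- the decryption
  have l₃ : (pairBits (List.ofFn w) (pairBits ((σ.sch O').Sk (pairBits (List.ofFn u) (un n)))
      ((σ.sch O').ct n (List.ofFn u) (List.ofFn v) b))).length ≤ c₃.eval n := by
    rw [length_pairBits, length_pairBits, List.length_ofFn, e₃]
    omega
  refine ⟨k₁, k₃, ?_⟩
  unfold Scheme.de
  rw [k₂, k₃]
  refine hd1 O O' _ _ ?_ hO
  have := eval_mono bd l₃
  omega

end Pool.Agent.W2helper71.PK
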